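import Pool.Agent.Helper881.StabLyap
import Pool.Agent.Helper881.StabIso
import Pool.Agent.Helper881.StabLattes

open MeasureTheory Pool.Agent.Helper881.Stab

namespace Pool.Agent.Results.MP_15f6e2_an.JoinFamily

/-- There is a dynamically stable algebraic family of endomorphisms of a projective space which is
neither isotrivial nor a Lattes family and has a member which is not postcritically finite (in
fact no member is Lattes and no member is postcritically finite). The family is the family of
endomorphisms `[x : y] ↦ [F_l(x) : G(y)]` of `ℙ^3` of degree `4`, with `F_l` the homogeneous lift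
of the doubling map on the Legendre curve with parameter `l`, and `G` the homogeneous lift of the
second iterate of `z ↦ z^2 - 6`. -/
theorem result : ∃ N d : ℕ, 1 ≤ N ∧ 2 ≤ d ∧ ∃ V : Set (Tuple N),
    IsAlgebraicFamily N d V ∧ IsStable N d V ∧ ¬ IsIsotrivial V ∧
      (∀ F ∈ V, ¬ IsLattes F) ∧ (∀ F ∈ V, ¬ IsPCF F) := by
  refine ⟨3, 4, by norm_num, by norm_num, VV, VV_family, ?_, not_isotrivial, ?_, ?_⟩
  · obtain ⟨c, cm, c3, c2, ch⟩ := exists_c
    refine ⟨fun _ => LConst c, ?_, ?_⟩
    · rintro F ⟨k, l, hk, h0, h1, rfl⟩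
      obtain ⟨h, C, hm, hb, hr⟩ := exists_rad h0 h1
      let D : Dat l := ⟨h, C, hm, hb, hr, c, cm, c3, c2, ch⟩
      have hL := lyap D h0 h1
      have h2 : IsLyapunovSum 3 4 (Hm l) (LConst c) :=
        ⟨muP D, muP_equilibrium D h0 h1, hL.1, hL.2.symm⟩
      exact h2.smul (Hm_isLift h0 h1) hk
    · intro Ω γ _ _ _
      exact InnerProductSpace.harmonicOnNhd_const _
  · rintro F ⟨k, l, hk, h0, h1, rfl⟩
    rw [IsLattes_smul (Hm_isLift h0 h1) hk]
    exact not_lattes h0 h1
  · rintro F ⟨k, l, hk, h0, h1, rfl⟩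
    rw [IsPCF_smul (Hm_isLift h0 h1) hk]
    exact not_PCF h0 h1

end Pool.Agent.Results.MP_15f6e2_an.JoinFamily
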